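import Mathlib

/-!
# Cohomology of the generic points of varieties: the axioms

`H i K` is the part of weight `i` of the cohomology in degree `i` of the generic point of a variety
over `Ω` with function field `K`, that is `H^i(X)` modulo the classes supported on divisors, `X`
smooth projective.
-/

set_option autoImplicit false

namespace Pool.Agent.Helper15.GD

open IntermediateField CategoryTheory MonoidalCategory Limits

/-- An extension field of `Ω`. -/
structure Ext (Ω : Type) [Field Ω] where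
  carrier : Type
  [field : Field carrier]
  [algebra : Algebra Ω carrier]

attribute [instance] Ext.field Ext.algebra

instance {Ω : Type} [Field Ω] : CoeSort (Ext Ω) Type := ⟨Ext.carrier⟩

/-- The homomorphisms of extension fields of `Ω`. -/
abbrev Ext.Hom {Ω : Type} [Field Ω] (K K' : Ext Ω) : Type := K →ₐ[Ω] K'

/-- `K` is finitely generated. -/
def Ext.FG {Ω : Type} [Field Ω] (K : Ext Ω) : Prop := (⊤ : IntermediateField Ω K).FG

/-- All the elements of `K` are algebraic over the field generated by `S`. -/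
def Ext.AlgebraicOver {Ω : Type} [Field Ω] (K : Ext Ω) (S : Set K) : Prop :=
  ∀ k : K, IsAlgebraic (adjoin Ω S) k

/-- `K'` is algebraic over the image of `g`. -/
def Ext.Hom.IsAlgebraic {Ω : Type} [Field Ω] {K K' : Ext Ω} (g : K.Hom K') : Prop :=
  ∀ a : K', _root_.IsAlgebraic g.fieldRange a

/-- The vector spaces `H^i(K)`, the homomorphisms induced by homomorphisms of fields, and the
products `H^2(K) ⊗ H^1(K) → H^3(K)`. -/
structure Coh (Ω L : Type) [Field Ω] [Field L] where
  H : ℕ → Ext Ω → ModuleCat.{0} L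
  map : ∀ (i : ℕ) {K K' : Ext Ω}, K.Hom K' → (H i K ⟶ H i K')
  cup : ∀ K : Ext Ω, H 2 K ⊗ H 1 K ⟶ H 3 K

variable {Ω L : Type} [Field Ω] [Field L]

/-- functoriality -/
def Coh.Functorial (T : Coh Ω L) : Prop :=
  (∀ (i : ℕ) (K : Ext Ω), T.map i (AlgHom.id Ω K) = 𝟙 (T.H i K)) ∧
    ∀ (i : ℕ) (K K' K'' : Ext Ω) (g : K.Hom K') (h : K'.Hom K''),
      T.map i (h.comp g) = T.map i g ≫ T.map i h

/-- finiteness -/
def Coh.Finite (T : Coh Ω L) : Prop :=
  ∀ (i : ℕ) (K : Ext Ω), K.FG → FiniteDimensional L (T.H i K)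

/-- transfer -/
def Coh.Transfer (T : Coh Ω L) : Prop :=
  ∀ (i : ℕ) (K K' : Ext Ω) (g : K.Hom K'), g.IsAlgebraic → Mono (T.map i g)

/-- Galois descent: the invariants of the Galois group of `K` over `N` come from `N`. -/
def Coh.Descent (T : Coh Ω L) : Prop :=
  ∀ (i : ℕ) (K : Ext Ω) (N : IntermediateField Ω K), FiniteDimensional N K → IsGalois N K →
    ∀ (V : ModuleCat.{0} L) (z : V ⟶ T.H i K),
      (∀ τ : K →ₐ[N] K, z ≫ T.map i (τ.restrictScalars Ω : K.Hom K) = z) →
      ∃ s : V ⟶ T.H i ⟨N⟩, s ≫ T.map (K := ⟨N⟩) (K' := K) i N.val = z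

/-- `K` is contained in a field `M(θ)`, where `M` is algebraic over a field generated over `Ω` by
fewer than `i` elements. -/
def Ext.Uniruled (K : Ext Ω) (i : ℕ) : Prop :=
  ∃ (E : Ext Ω) (g : K.Hom E) (S : Finset E) (θ : E),
    S.card < i ∧ ∀ k, g k ∈ adjoin Ω ({a | IsAlgebraic (adjoin Ω (S : Set E)) a} ∪ {θ})

/-- vanishing in degrees above the dimension, and in the degree of the dimension if the variety is
uniruled -/
def Coh.Vanishing (T : Coh Ω L) : Prop :=
  ∀ (i : ℕ) (K : Ext Ω), K.Uniruled i → IsZero (T.H i K)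

/-- naturality of the product -/
def Coh.Natural (T : Coh Ω L) : Prop :=
  ∀ (K K' : Ext Ω) (g : K.Hom K'),
    T.cup K ≫ T.map 3 g = (T.map 2 g ⊗ₘ T.map 1 g) ≫ T.cup K'

/-- `C` is the function field of the curve `u ^ n = v ^ α * (1 - v) ^ β`, and `σ` its automorphism
`u ↦ ζ u`, where `ζ` is a primitive root of unity of order `n`. -/
structure IsCurve (C : Ext Ω) (n α β : ℕ) (ζ : Ω) (v u : C) (σ : C.Hom C) : Prop where
  tame : (n : Ω) ≠ 0
  root : IsPrimitiveRoot ζ n
  transc : Transcendental Ω v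
  eq : u ^ n = v ^ α * (1 - v) ^ β
  gen : adjoin Ω {v, u} = ⊤
  fix : σ v = v
  mul : σ u = algebraMap Ω C ζ * u

/-- the cohomology of the curve `u ^ n = v ^ α * (1 - v) ^ β` as a representation of its group of
automorphisms `u ↦ ζ u` -/
def Coh.Curves (T : Coh Ω L) : Prop :=
  ∀ (C : Ext Ω) (n α β : ℕ) (ζ : Ω) (v u : C) (σ : C.Hom C), IsCurve C n α β ζ v u σ →
    ∀ ξ : L, ξ ^ n = 1 → ξ ^ α ≠ 1 → ξ ^ β ≠ 1 → ξ ^ (α + β) ≠ 1 →
      ¬ Mono (T.map 1 σ - ξ • 𝟙 (T.H 1 C))

/-- The axioms. -/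
structure Coh.IsBase (T : Coh Ω L) : Prop where
  functorial : T.Functorial
  finite : T.Finite
  transfer : T.Transfer
  descent : T.Descent
  vanishing : T.Vanishing
  natural : T.Natural
  curves : T.Curves

/-- the product of the inverse images of a class of `K` and a class of `C` -/
noncomputable def Coh.cross (T : Coh Ω L) {K C N : Ext Ω} (a : K.Hom N) (b : C.Hom N) :
    T.H 2 K ⊗ T.H 1 C ⟶ T.H 3 N :=
  (T.map 2 a ⊗ₘ T.map 1 b) ≫ T.cup N

/-- `N` contains the function field of the product of the surface with function field `K` and the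
curve with function field `C`. -/
structure IsProd {K C N : Ext Ω} (a : K.Hom N) (b : C.Hom N) : Prop where
  fgK : K.FG
  fgC : C.FG
  surface : ∃ x y : K, K.AlgebraicOver {x, y}
  curve : ∃ v : C, C.AlgebraicOver {v} ∧ Transcendental a.fieldRange (b v)

end Pool.Agent.Helper15.GD
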