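import Pool.Agent.Helper15.GD.Motivic
import Pool.Agent.Helper15.QM.Defs

/-! From the axioms as stated in `GD` to the structures used in the proofs. -/

set_option autoImplicit false

namespace Pool.Agent.Helper15.GD

open IntermediateField TensorProduct Pool.Agent.Helper75.QC CategoryTheory MonoidalCategory Limits

variable {Ω L G : Type} [Field Ω] [Field L] [Group G]

theorem Ext.uniruled_of {K : Type} [Field K] [Algebra Ω K] {i : ℕ}
    (h : Pool.Agent.Helper75.QC.Uniruled Ω K i) : (Ext.mk K : Ext Ω).Uniruled i := by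
  obtain ⟨E, iE, jE, g, S, θ, hS, hk⟩ := h
  exact ⟨⟨E⟩, g, S, θ, hS, hk⟩

/-- the product as a bilinear map -/
noncomputable def Coh.cup' (T : Coh Ω L) (K : Ext Ω) : T.H 2 K →ₗ[L] T.H 1 K →ₗ[L] T.H 3 K :=
  TensorProduct.curry (T.cup K).hom

theorem Coh.cup'_apply (T : Coh Ω L) (K : Ext Ω) (a : T.H 2 K) (b : T.H 1 K) :
    T.cup' K a b = (T.cup K).hom (a ⊗ₜ b) := rfl

theorem Coh.cross_eq (T : Coh Ω L) {K C N : Ext Ω} (a : K.Hom N) (b : C.Hom N) :
    (T.cross a b).hom =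
      TensorProduct.lift ((T.cup' N).compl₁₂ (T.map 2 a).hom (T.map 1 b).hom) := by
  refine TensorProduct.ext' fun x y => ?_
  rfl

/-- the structure used in the proofs -/
noncomputable def Coh.toBase (T : Coh Ω L) (h : T.IsBase) : BaseTheory Ω L where
  H := fun i K _ _ => T.H i ⟨K⟩
  map := fun i {K K'} _ _ _ _ g => (T.map (K := ⟨K⟩) (K' := ⟨K'⟩) i g).hom
  map_id := fun i K _ _ => by
    rw [h.functorial.1 i ⟨K⟩]
    rfl
  map_comp := fun i {K K' K''} _ _ _ _ _ _ g g' => by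
    rw [h.functorial.2 i ⟨K⟩ ⟨K'⟩ ⟨K''⟩ g g']
    rfl
  fin := fun i K _ _ hK => h.finite i ⟨K⟩ hK
  inj := fun i {K K'} _ _ _ _ g hg => by
    have h1 := h.transfer i ⟨K⟩ ⟨K'⟩ g hg
    exact (ModuleCat.mono_iff_injective _).1 h1
  descent := fun i K _ _ N hN hG z hz => by
    obtain ⟨s, hs⟩ := h.descent i ⟨K⟩ N hN hG (ModuleCat.of L L)
      (ModuleCat.ofHom (LinearMap.toSpanSingleton L (T.H i ⟨K⟩) z)) (fun τ => by
        refine ModuleCat.hom_ext (LinearMap.ext_ring ?_)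
        show (T.map (K := ⟨K⟩) (K' := ⟨K⟩) i _).hom ((1 : L) • z) = (1 : L) • z
        rw [one_smul]
        exact hz τ)
    refine ⟨s.hom (1 : L), ?_⟩
    have h1 := congrArg (fun f => f.hom (1 : L)) hs
    change _ = (1 : L) • z at h1
    rw [one_smul] at h1
    exact h1
  uniruled := fun i K _ _ hK z => by
    have h1 := h.vanishing i ⟨K⟩ (Ext.uniruled_of hK)
    have h2 : 𝟙 (T.H i ⟨K⟩) = 0 := h1.eq_of_src _ _
    have h3 := congrArg (fun f => f.hom z) h2
    exact h3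
  cup := fun K _ _ => T.cup' ⟨K⟩
  pull_mul := fun {K K'} _ _ _ _ g a b => by
    have h1 := congrArg (fun f => f.hom (a ⊗ₜ b)) (h.natural ⟨K⟩ ⟨K'⟩ g)
    exact h1
  curve' := fun C _ _ n α β ζ v u σ h1 h2 h3 h4 h5 h6 h7 ξ e1 e2 e3 e4 => by
    have h0 := h.curves ⟨C⟩ n α β ζ v u σ ⟨h1, h2, h3, h4, h5, h6, h7⟩ ξ e1 e2 e3 e4
    rw [ModuleCat.mono_iff_injective] at h0
    by_contra hcon
    push Not at hcon
    apply h0
    refine (injective_iff_map_eq_zero _).2 fun z hz => ?_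
    by_contra hz0
    refine hcon z hz0 ?_
    exact sub_eq_zero.1 hz

/-- the structure used in the proofs -/
noncomputable def MotivicCoh.toTheory (T : MotivicCoh Ω L G) (h : T.IsMotivic) :
    Pool.Agent.Helper15.QM.MotivicTheory Ω L G where
  toBaseTheory := T.toCoh.toBase h.base
  act := fun i K _ _ =>
    { toFun := fun γ => (T.act i ⟨K⟩ γ).hom
      map_one' := by
        rw [h.action.1 i ⟨K⟩]
        rfl
      map_mul' := fun γ δ => by
        rw [h.action.2 i ⟨K⟩ γ δ]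
        rfl }
  map_act := fun i {K K'} _ _ _ _ g γ t => by
    have h1 := congrArg (fun f => f.hom t) (h.equivariant i ⟨K⟩ ⟨K'⟩ g γ)
    exact h1
  tate := T.tate.toHomUnits
  gysin := fun {K C N} _ _ _ _ _ _ a b x y v h1 h2 h3 h4 h5 => by
    obtain ⟨D, g, hD, hg, hk⟩ := h.gysin ⟨K⟩ ⟨C⟩ ⟨N⟩ a b ⟨h1, h2, ⟨x, y, h3⟩, ⟨v, h4, h5⟩⟩
    refine ⟨D.carrier, D.field, D.algebra, g.hom, hD, fun γ s => ?_, fun t => ?_⟩
    · have e1 : T.tate γ • TensorProduct.map (T.act 2 ⟨K⟩ γ).hom (T.act 1 ⟨C⟩ γ).hom (g.hom s) =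
          g.hom ((T.act 1 D γ).hom s) := congrArg (fun f => f.hom s) (hg γ)
      have e2 : ((T.tate.toHomUnits γ : Lˣ) : L) = T.tate γ := rfl
      change TensorProduct.map (T.act 2 ⟨K⟩ γ).hom (T.act 1 ⟨C⟩ γ).hom (g.hom s) =
        (T.tate.toHomUnits γ)⁻¹ • g.hom ((T.act 1 D γ).hom s)
      rw [← e1, Units.smul_def, ← e2, smul_smul, Units.inv_mul, one_smul]
    · have e0 := T.cross_eq (K := ⟨K⟩) (C := ⟨C⟩) (N := ⟨N⟩) a b
      have e1 : TensorProduct.lift ((T.cup' ⟨N⟩).compl₁₂ (T.map (K := ⟨K⟩) (K' := ⟨N⟩) 2 a).hom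
          (T.map (K := ⟨C⟩) (K' := ⟨N⟩) 1 b).hom) t =
          (T.cross (K := ⟨K⟩) (C := ⟨C⟩) (N := ⟨N⟩) a b).hom t := by rw [e0]
      refine Iff.trans (Eq.congr_left e1) ?_
      constructor
      · intro ht
        obtain ⟨s, hs⟩ := (hk (ModuleCat.of L L)
          (ModuleCat.ofHom (LinearMap.toSpanSingleton L _ t))).1 (by
            refine ModuleCat.hom_ext (LinearMap.ext_ring ?_)
            show (T.cross (K := ⟨K⟩) (C := ⟨C⟩) (N := ⟨N⟩) a b).hom ((1 : L) • t) = 0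
            rw [one_smul]
            exact ht)
        refine ⟨s.hom (1 : L), ?_⟩
        have h1 := congrArg (fun f => f.hom (1 : L)) hs
        change _ = (1 : L) • t at h1
        rw [one_smul] at h1
        exact h1
      · rintro ⟨s, rfl⟩
        have h1 := (hk (ModuleCat.of L L)
          (ModuleCat.ofHom (LinearMap.toSpanSingleton L _ (g.hom s)))).2
          ⟨ModuleCat.ofHom (LinearMap.toSpanSingleton L _ s), by
            refine ModuleCat.hom_ext (LinearMap.ext_ring ?_)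
            show g.hom ((1 : L) • s) = (1 : L) • g.hom s
            rw [one_smul, one_smul]⟩
        have h2 := congrArg (fun f => f.hom (1 : L)) h1
        change (T.cross (K := ⟨K⟩) (C := ⟨C⟩) (N := ⟨N⟩) a b).hom ((1 : L) • g.hom s) = 0 at h2
        rw [one_smul] at h2
        exact h2

end Pool.Agent.Helper15.GD
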