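import Pool.Agent.Helper15.GD.Base

/-!
# The action of the motivic Galois group: the axioms
-/

set_option autoImplicit false

namespace Pool.Agent.Helper15.GD

open IntermediateField CategoryTheory MonoidalCategory Limits

/-- The realisation, with coefficients in `L`, of the motives `h^i(X)` modulo the part of coniveau
one, `X` smooth projective over `Ω`, and the action of the motivic Galois group on them and on the
Tate motive of rank one and weight `-2`. -/
structure MotivicCoh (Ω L G : Type) [Field Ω] [Field L] [Group G] extends Coh Ω L where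
  act : ∀ (i : ℕ) (K : Ext Ω), G → (H i K ⟶ H i K)
  tate : G →* L

variable {Ω L G : Type} [Field Ω] [Field L] [Group G]

/-- The group `G` acts. -/
def MotivicCoh.Action (T : MotivicCoh Ω L G) : Prop :=
  (∀ (i : ℕ) (K : Ext Ω), T.act i K 1 = 𝟙 (T.H i K)) ∧
    ∀ (i : ℕ) (K : Ext Ω) (γ δ : G), T.act i K (γ * δ) = T.act i K δ ≫ T.act i K γ

/-- The homomorphisms induced by rational maps are homomorphisms of motives. -/
def MotivicCoh.Equivariant (T : MotivicCoh Ω L G) : Prop :=
  ∀ (i : ℕ) (K K' : Ext Ω) (g : K.Hom K') (γ : G),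
    T.act i K γ ≫ T.map i g = T.map i g ≫ T.act i K' γ

/-- `g` is a homomorphism of motives from `h^1(D)(-1)` to `h^2(K) ⊗ h^1(C)`. -/
def MotivicCoh.IsHom (T : MotivicCoh Ω L G) {K C D : Ext Ω} (g : T.H 1 D ⟶ T.H 2 K ⊗ T.H 1 C) :
    Prop :=
  ∀ γ : G, T.tate γ • (g ≫ (T.act 2 K γ ⊗ₘ T.act 1 C γ)) = T.act 1 D γ ≫ g

/-- Let `X` be a surface and `C` a curve. The part of `h^2(X) ⊗ h^1(C)` which vanishes at the
generic point of `X × C` is supported on a divisor: it is the image of a homomorphism of motives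
from `h^1(D)(-1)`, for a variety `D`. -/
def MotivicCoh.Gysin (T : MotivicCoh Ω L G) : Prop :=
  ∀ (K C N : Ext Ω) (a : K.Hom N) (b : C.Hom N), IsProd a b →
    ∃ (D : Ext Ω) (g : T.H 1 D ⟶ T.H 2 K ⊗ T.H 1 C), D.FG ∧ T.IsHom g ∧
      ∀ (V : ModuleCat.{0} L) (t : V ⟶ T.H 2 K ⊗ T.H 1 C),
        t ≫ T.cross a b = 0 ↔ ∃ s : V ⟶ T.H 1 D, s ≫ g = t

/-- The axioms. -/
structure MotivicCoh.IsMotivic (T : MotivicCoh Ω L G) : Prop where
  base : T.IsBase
  action : T.Action
  equivariant : T.Equivariant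
  gysin : T.Gysin

/-- `γ` acts trivially on all abelian motives: on the Tate motive and on `h^1(D)` for every
variety `D`. -/
def MotivicCoh.IsTrivialOnAbelian (T : MotivicCoh Ω L G) (γ : G) : Prop :=
  T.tate γ = 1 ∧ ∀ D : Ext Ω, D.FG → T.act 1 D γ = 𝟙 (T.H 1 D)

end Pool.Agent.Helper15.GD
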